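import Pool.Agent.J4H22.Quasi

/-!
# An average-case parity dichotomy for the polynomial space-time hierarchy

For indices `j` and `k` of different parity, `C_{j+1}` contains a tally set that cannot be
approximated by any set in the quasi-polynomial enlargement `QC_j` of `C_j`, or `C_{k+1}` contains
a tally set that cannot be approximated by any set in `QC_k`; here the sets differ on at least
`(1/2 - ε) n` of the first `n` tally inputs, for every `ε > 0` and arbitrarily large `n`. This
holds without oracle and relative to every oracle.

Proof: if a tally set in `C_{j+3}` is not in `C_{j+2}`, then the set in `C_{j+1}` that repeats its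
values on the blocks of the lengths from `2^p(n)` to `2^p(n+1)` is not approximated by sets in
`QC_j`, since a majority vote over a block is possible in `C_{j+2}`. Otherwise `C_{j+3}` and
`C_{j+2}` have the same tally sets, and a tally set further up serves for the other parity in the
same way.
-/

namespace Pool.Agent.Results.MP_47ff19_lc.AverageDichotomy

open Pool.Agent.J4H22

/-- For `j`, `k` of different parity, `C_{j+1}` has a tally set far from all sets in `QC_j`, or
`C_{k+1}` has a tally set far from all sets in `QC_k`. -/
theorem result (o : Option Oracle) (j k : ℕ) (h : Odd (j + k)) :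
    (∃ T ∈ C o (j + 1), T ⊆ Tal ∧ ∀ S ∈ QC o j, Far S T) ∨
    (∃ T ∈ C o (k + 1), T ⊆ Tal ∧ ∀ S ∈ QC o k, Far S T) :=
  avgQ o h

end Pool.Agent.Results.MP_47ff19_lc.AverageDichotomy
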