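import Pool.Agent.J4H22.Patterns

/-!
# The possible patterns of equalities in the polynomial space-time hierarchy

A set `S` of indices is the set of all `j` with `C_j = C_{j+1}`, without oracle or relative to some
oracle, if and only if `S` is empty or consists of all numbers from some `m` on that have the
parity of `m`.

Proof: an equality `C_j = C_{j+1}` is carried two levels up by padding, and two adjacent equalities
contradict the separation of `C_j` and `C_{j+2}`. Conversely, for each pattern there is an oracle
that codes the computations of one class by strings with long pads (or with keys that are hard to
find) and that is generic (in the sense of Baire category) on the other strings; the separation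
below the first equality uses hidden strings whose names are too long to be found by the smaller
class. At the bottom a program in logarithmic space writes the padded code of its input.
-/

namespace Pool.Agent.Results.MP_47ff19_lc.CollapsePatterns

open Pool.Agent.J4H22

/-- The sets of indices of equalities between consecutive classes, with or without oracle, are the
empty set and the sets of all numbers of the parity of `m` from `m` on. -/
theorem result (S : Set ℕ) :
    (∃ o : Option Oracle, ∀ j, C o j = C o (j + 1) ↔ j ∈ S) ↔
      (S = ∅ ∨ ∃ m : ℕ, S = {j | m ≤ j ∧ j % 2 = m % 2}) := by
  constructor
  · rintro ⟨o, h⟩
    have e : EqSet o = S := Set.ext h
    rw [← e]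
    exact pattern_all o
  · intro h
    obtain ⟨A, hA⟩ := exists_pattern h
    exact ⟨some A, fun j => by
      rw [← hA]
      exact Iff.rfl⟩

end Pool.Agent.Results.MP_47ff19_lc.CollapsePatterns
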