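import Pool.Agent.J4H22.Window

/-!
# Strictness is equivalent to average-case hardness of tally sets two levels down

For every `j`, without oracle and relative to every oracle: `C_{j+2} = C_{j+3}` if and only if all
tally sets in `C_{j+1}` are in the quasi-polynomial enlargement `QC_j` of `C_j`, if and only if
every tally set `T` in `C_{j+1}` is approximated by some `S` in `QC_j`, in the weak sense that for
some `δ > 0` they agree on more than half of the tally inputs with lengths in `[a, b)`, for all
large `a` and all `b ≥ a + a^(1-δ)`. For example, PSPACE differs from EXP if and only if P contains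
a tally set that no set in polylogarithmic space approximates in this sense.

Proof: if `L` is in `C_{j+3}` but not in `C_{j+2}`, the tally set that repeats the value `L(x)` on
the lengths in `[x 2^q, (x+1) 2^q)`, with `q` a polynomial in the length of `x`, is in `C_{j+1}`;
a majority vote over a block is possible in `C_{j+2}`. Conversely, if `C_{j+2} = C_{j+3}`, a
machine for a tally set first computes the length of its input in binary.
-/

namespace Pool.Agent.Results.MP_47ff19_lc.TallyAverageEquivalence

open Pool.Agent.J4H22

/-- Equality of `C_{j+2}` and `C_{j+3}` in terms of the tally sets in `C_{j+1}`. -/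
theorem result (o : Option Oracle) (j : ℕ) : List.TFAE [
    C o (j + 2) = C o (j + 3),
    ∀ T ∈ C o (j + 1), T ⊆ Tal → T ∈ QC o j,
    ∀ T ∈ C o (j + 1), T ⊆ Tal → ∃ S ∈ QC o j, ¬ FarW S T] :=
  equiv_all o j

end Pool.Agent.Results.MP_47ff19_lc.TallyAverageEquivalence
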